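import Pool.Agent.K1H12.SW.Stm

set_option autoImplicit false
set_option linter.style.haveILetI false

/-!
# Piece SUB of the project HE: restriction of resolutions to subgroups of finite index
-/

namespace Pool.Agent.K1H20.HE

open Pool.Agent.K1H12.SW

section

variable {G : Type} [Group G] (K : Subgroup G)

/-- the inclusion of the group rings -/
noncomputable abbrev incl : MonoidAlgebra ℤ K →+* MonoidAlgebra ℤ G :=
  MonoidAlgebra.mapDomainRingHom ℤ K.subtype

/-- restriction of the action -/
noncomputable abbrev rM (P : Type) [AddCommGroup P] [Module (MonoidAlgebra ℤ G) P] :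
    Module (MonoidAlgebra ℤ K) P := Module.compHom P (incl K)

lemma smul_rM (P : Type) [AddCommGroup P] [Module (MonoidAlgebra ℤ G) P]
    (a : MonoidAlgebra ℤ K) (x : P) :
    letI := rM K P
    a • x = incl K a • x := rfl

lemma tower (P : Type) [AddCommGroup P] [Module (MonoidAlgebra ℤ G) P] :
    letI := rM K P
    letI := rM K (MonoidAlgebra ℤ G)
    IsScalarTower (MonoidAlgebra ℤ K) (MonoidAlgebra ℤ G) P := by
  letI := rM K P
  letI := rM K (MonoidAlgebra ℤ G)
  exact ⟨fun a x p => by
    rw [smul_rM, smul_rM, smul_eq_mul, mul_smul]⟩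

lemma coeff_incl (a : MonoidAlgebra ℤ K) (k : K) : (incl K a).coeff k = a.coeff k := by
  show (MonoidAlgebra.mapDomain K.subtype a).coeff k = _
  exact Finsupp.mapDomain_apply K.subtype_injective a.coeff k

lemma coeff_incl_not (a : MonoidAlgebra ℤ K) (g : G) (h : g ∉ K) : (incl K a).coeff g = 0 := by
  show (MonoidAlgebra.mapDomain K.subtype a).coeff g = _
  refine Finsupp.mapDomain_of_notMem_range a.coeff g ?_
  rintro ⟨k, rfl⟩
  exact h k.2

lemma coeff_mul_single (x : MonoidAlgebra ℤ G) (g t : G) :
    (x * MonoidAlgebra.single t 1).coeff g = x.coeff (g * t⁻¹) := by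
  have h := MonoidAlgebra.coeff_mul_single_eq_coeff_mul (x := x) (r := (1 : ℤ)) (m := t) (m₁ := g)
    (g * t⁻¹) (fun m' _ => ⟨fun h => by rw [← h]; group, fun h => by rw [h]; group⟩)
  rw [h, mul_one]

/-- `ℤG` is free over `ℤK` with a finite basis -/
theorem basis (hK : K.FiniteIndex) :
    letI := rM K (MonoidAlgebra ℤ G)
    ∃ (T : Type), Finite T ∧
      Nonempty (Module.Basis T (MonoidAlgebra ℤ K) (MonoidAlgebra ℤ G)) := by
  letI := rM K (MonoidAlgebra ℤ G)
  obtain ⟨T, hT, -⟩ := K.exists_isComplement_right 1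
  have hfin : Finite T := by
    apply Nat.finite_of_card_ne_zero
    rw [hT.card_right]
    exact hK.index_ne_zero
  refine ⟨T, hfin, ?_⟩
  set F : (T →₀ MonoidAlgebra ℤ K) →ₗ[MonoidAlgebra ℤ K] MonoidAlgebra ℤ G :=
    Finsupp.linearCombination (MonoidAlgebra ℤ K) (fun t : T => MonoidAlgebra.single (t : G) (1 : ℤ))
    with hF
  have hFs : ∀ (t : T) (a : MonoidAlgebra ℤ K),
      F (Finsupp.single t a) = incl K a * MonoidAlgebra.single (t : G) 1 := by
    intro t a
    rw [hF, Finsupp.linearCombination_single]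
    rfl
  have hT2 : ∀ (k : K) (t t' : T), (k : G) * (t : G) * (t' : G)⁻¹ ∈ K → t = t' := by
    intro k t t' h
    have h1 := hT.1 (a₁ := (⟨⟨(k : G) * (t : G) * (t' : G)⁻¹, h⟩, t'⟩ : K × T))
      (a₂ := ((k, t) : K × T)) (by
        show (k : G) * (t : G) * (t' : G)⁻¹ * (t' : G) = (k : G) * (t : G)
        group)
    exact (congrArg Prod.snd h1).symm
  have hcoef : ∀ (a : T →₀ MonoidAlgebra ℤ K) (k : K) (t : T),
      (F a).coeff ((k : G) * (t : G)) = (a t).coeff k := by
    intro a k t
    induction a using Finsupp.induction_linear with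
    | zero => simp
    | add a b ha hb => rw [map_add, MonoidAlgebra.coeff_add, Finsupp.add_apply, ha, hb,
        Finsupp.add_apply, MonoidAlgebra.coeff_add, Finsupp.add_apply]
    | single t' x =>
      rw [hFs, coeff_mul_single]
      by_cases h : t = t'
      · subst h
        rw [mul_inv_cancel_right, coeff_incl, Finsupp.single_eq_same]
      · rw [coeff_incl_not K x _ (fun hm => h (hT2 k t t' hm)), Finsupp.single_eq_of_ne h]
        rfl
  have hinj : Function.Injective F := by
    rw [injective_iff_map_eq_zero]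
    intro a ha
    ext t k
    rw [← hcoef a k t, ha]
    rfl
  have hsurj : Function.Surjective F := by
    rw [← LinearMap.range_eq_top, eq_top_iff]
    rintro x -
    induction x using MonoidAlgebra.induction_linear with
    | zero => exact Submodule.zero_mem _
    | add x y hx hy => exact Submodule.add_mem _ hx hy
    | single g r =>
      obtain ⟨⟨k, t⟩, hkt⟩ := hT.2 g
      refine ⟨Finsupp.single t (MonoidAlgebra.single k r), ?_⟩
      rw [hFs]
      show MonoidAlgebra.mapDomain K.subtype (MonoidAlgebra.single k r) * _ = _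
      rw [MonoidAlgebra.mapDomain_single, MonoidAlgebra.single_mul_single, mul_one]
      congr 1
  exact ⟨⟨(LinearEquiv.ofBijective F ⟨hinj, hsurj⟩).symm⟩⟩

/-- finiteness -/
theorem fin (hK : K.FiniteIndex) (P : Type) [AddCommGroup P] [Module (MonoidAlgebra ℤ G) P]
    [Module.Finite (MonoidAlgebra ℤ G) P] :
    letI := rM K P
    Module.Finite (MonoidAlgebra ℤ K) P := by
  letI := rM K P
  letI := rM K (MonoidAlgebra ℤ G)
  haveI := tower K P
  obtain ⟨T, hT, ⟨b⟩⟩ := basis K hK
  haveI : Module.Finite (MonoidAlgebra ℤ K) (MonoidAlgebra ℤ G) := Module.Finite.of_basis b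
  exact Module.Finite.trans (MonoidAlgebra ℤ G) P

theorem free (hK : K.FiniteIndex) (P : Type) [AddCommGroup P] [Module (MonoidAlgebra ℤ G) P]
    [Module.Free (MonoidAlgebra ℤ G) P] :
    letI := rM K P
    Module.Free (MonoidAlgebra ℤ K) P := by
  letI := rM K P
  letI := rM K (MonoidAlgebra ℤ G)
  haveI := tower K P
  obtain ⟨T, hT, ⟨b⟩⟩ := basis K hK
  exact Module.Free.of_basis (b.smulTower (Module.Free.chooseBasis (MonoidAlgebra ℤ G) P))

theorem proj (hK : K.FiniteIndex) (P : Type) [AddCommGroup P] [Module (MonoidAlgebra ℤ G) P]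
    [hP : Module.Projective (MonoidAlgebra ℤ G) P] :
    letI := rM K P
    Module.Projective (MonoidAlgebra ℤ K) P := by
  letI := rM K P
  obtain ⟨s, hs⟩ := (Module.projective_def' (R := MonoidAlgebra ℤ G) (P := P)).1 hP
  letI : Module (MonoidAlgebra ℤ K) (P →₀ MonoidAlgebra ℤ G) := rM K (P →₀ MonoidAlgebra ℤ G)
  haveI : Module.Free (MonoidAlgebra ℤ K) (P →₀ MonoidAlgebra ℤ G) :=
    free K hK (P →₀ MonoidAlgebra ℤ G)
  let i : P →ₗ[MonoidAlgebra ℤ K] (P →₀ MonoidAlgebra ℤ G) :=
    { toFun := s
      map_add' := s.map_add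
      map_smul' := fun a x => s.map_smul (incl K a) x }
  let q : (P →₀ MonoidAlgebra ℤ G) →ₗ[MonoidAlgebra ℤ K] P :=
    { toFun := Finsupp.linearCombination (MonoidAlgebra ℤ G) id
      map_add' := map_add _
      map_smul' := fun a x =>
        (Finsupp.linearCombination (MonoidAlgebra ℤ G) (id : P → P)).map_smul (incl K a) x }
  exact Module.Projective.of_split i q (LinearMap.ext fun x => by
    exact congrArg (fun f => f x) hs)

/-- restriction of a linear map -/
noncomputable def rL {P Q : Type} [AddCommGroup P] [Module (MonoidAlgebra ℤ G) P] [AddCommGroup Q]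
    [Module (MonoidAlgebra ℤ G) Q] (f : P →ₗ[MonoidAlgebra ℤ G] Q) :
    letI := rM K P
    letI := rM K Q
    P →ₗ[MonoidAlgebra ℤ K] Q :=
  letI := rM K P
  letI := rM K Q
  { toFun := f
    map_add' := f.map_add
    map_smul' := fun a x => f.map_smul (incl K a) x }

end

theorem t_SUB : S_SUB := by
  intro G _ K hK A _
  constructor
  · rintro ⟨P, iA, iM, d, ε, n, hF, hP, hz, hε, hs, h0, hd⟩
    refine ⟨P, iA, fun i => rM K (P i), fun i => rL K (d i), ε, n, fun i => fin K hK (P i),
      fun i => proj K hK (P i), hz, ?_, hs, ?_, ?_⟩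
    · intro g x
      have := hε g x
      rw [← this]
      congr 1
      show incl K (MonoidAlgebra.of ℤ K g) • x = _
      congr 1
      simp [incl]
    · intro x
      rw [h0 x]
      rfl
    · intro i
      letI := rM K (P (i + 1))
      exact Submodule.ext fun x => SetLike.ext_iff.1 (hd i) x
  · rintro ⟨P, iA, iM, d, ε, n, hF, hP, hz, hε, hs, h0, hd⟩
    refine ⟨P, iA, fun i => rM K (P i), fun i => rL K (d i), ε, n, fun i => fin K hK (P i),
      fun i => free K hK (P i), hz, ?_, hs, ?_, ?_⟩
    · intro g x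
      have := hε g x
      rw [← this]
      congr 1
      show incl K (MonoidAlgebra.of ℤ K g) • x = _
      congr 1
      simp [incl]
    · intro x
      rw [h0 x]
      rfl
    · intro i
      letI := rM K (P (i + 1))
      exact Submodule.ext fun x => SetLike.ext_iff.1 (hd i) x

end Pool.Agent.K1H20.HE
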